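import Pool.Agent.K3h44.RQ.Stm3
import Pool.Agent.K3h76.RQ.LAMM

set_option autoImplicit false

/-!
# Project RQ (helper44), brick RELB (helper48)

A polynomial whose values at all powers of a primitive `p`-th root of unity satisfy a congruence
modulo `(1 - ζ) ^ (p - 1)` satisfies a congruence modulo `(X - 1) ^ (p - 1)`.
-/

namespace Pool.Agent.K3h48.RQ

open NumberField IsDedekindDomain HeightOneSpectrum Polynomial
open Pool.Agent.K3h44.RQ Pool.Agent.K3h76.RQ
open WithZero (exp)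

section abs

variable {F : Type} [Field F] {v : Valuation F (WithZero (Multiplicative ℤ))}

/-- powers of elements congruent modulo `λ ^ 2` -/
lemma pow_cong {a b : F} (ha : Od v 1 a) (hb : Od v 1 b) (hab : Od v 2 (a - b)) (l : ℕ) :
    Od v (l + 1) (a ^ l - b ^ l) := by
  induction l with
  | zero => simpa using Od.zero
  | succ l ih =>
    have h : a ^ (l + 1) - b ^ (l + 1) = a ^ l * (a - b) + b * (a ^ l - b ^ l) := by ring
    rw [h]
    refine Od.add ?_ ?_
    · refine ((ha.pow l).mul hab).mono ?_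
      push_cast
      omega
    · refine (hb.mul ih).mono ?_
      push_cast
      omega

lemma eval_taylor {R : Type} [CommRing R] (φ : R →+* F) (Ψ : Polynomial R) (u : F) :
    Ψ.eval₂ φ u =
      ∑ l ∈ Finset.range (Ψ.natDegree + 1), φ ((taylor 1 Ψ).coeff l) * (u - 1) ^ l := by
  have h : Ψ.eval₂ φ u = (taylor 1 Ψ).eval₂ φ (u - 1) := by
    rw [taylor_apply, eval₂_comp]
    simp
  rw [h, eval₂_eq_sum_range, natDegree_taylor]

/-- a primitive root modulo `p` -/
lemma exists_root {p : ℕ} (hp : p.Prime) : ∃ w : ℕ, ¬ p ∣ w ∧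
    ∀ l : ℕ, 1 ≤ l → l + 2 ≤ p → ¬ (p : ℤ) ∣ (w : ℤ) ^ l - 1 := by
  have : Fact p.Prime := ⟨hp⟩
  obtain ⟨g, hg⟩ := IsCyclic.exists_generator (α := (ZMod p)ˣ)
  have ho : orderOf g = p - 1 := by
    rw [orderOf_eq_card_of_forall_mem_zpowers hg, Nat.card_eq_fintype_card,
      ZMod.card_units_eq_totient, Nat.totient_prime hp]
  have hval : (((g : ZMod p).val : ℕ) : ZMod p) = g := ZMod.natCast_zmod_val _
  refine ⟨(g : ZMod p).val, ?_, ?_⟩
  · intro h
    rw [← ZMod.natCast_eq_zero_iff, hval] at h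
    exact g.ne_zero h
  · intro l hl1 hl2 h
    rw [← ZMod.intCast_zmod_eq_zero_iff_dvd] at h
    push_cast at h
    rw [hval, sub_eq_zero] at h
    have h1 : g ^ l = 1 := by
      ext
      push_cast
      exact h
    have h2 := Nat.le_of_dvd (by omega) (orderOf_dvd_of_pow_eq_one h1)
    omega

theorem claim {R : Type} [CommRing R] (φ : R →+* F) (hφ : ∀ a, Od v 0 (φ a)) {p : ℕ}
    (hp : p.Prime) (q : Ideal R) (hq : ∀ a, a ∈ q ↔ v (φ a) < 1)
    (hK : ∀ a ∈ q, Od v ((p : ℤ) - 1) (φ a)) {ζ : F} (hz : v (1 - ζ) = exp (-1 : ℤ))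
    (hpv : Od v 1 (p : F)) (Ψ : Polynomial R)
    (h : ∀ w : ℕ, ¬ p ∣ w → Od v ((p : ℤ) - 1) (Ψ.eval₂ φ (ζ ^ w) - Ψ.eval₂ φ ζ)) :
    ∀ l : ℕ, 1 ≤ l → l + 2 ≤ p → (taylor 1 Ψ).coeff l ∈ q := by
  obtain ⟨w, hw, hroot⟩ := exists_root hp
  have hl : Od v 1 (1 - ζ) := hz.le
  have hone : ∀ s : ℕ, Od v 1 (ζ ^ s - 1) := by
    intro s
    have h3 : ζ ^ s - 1 = -((1 - ζ ^ s - s * (1 - ζ)) + s * (1 - ζ)) := by ring
    rw [h3]
    refine (((lin hl s).mono (by norm_num)).add ?_).neg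
    have := (Od.nat (v := v) s).mul hl
    rwa [zero_add] at this
  intro l
  induction l using Nat.strong_induction_on with
  | _ l ih =>
    intro hl1 hl2
    set N := Ψ.natDegree + 1 with hN
    by_cases hlN : l < N
    swap
    · have h0 : (taylor 1 Ψ).coeff l = 0 := by
        apply coeff_eq_zero_of_natDegree_lt
        rw [natDegree_taylor]
        omega
      rw [h0]
      exact q.zero_mem
    -- the expansion up to order `l`
    have hE : ∀ s : ℕ, Od v (l + 1) (Ψ.eval₂ φ (ζ ^ s) - φ ((taylor 1 Ψ).coeff 0) -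
        φ ((taylor 1 Ψ).coeff l) * (ζ ^ s - 1) ^ l) := by
      intro s
      have h1 : Ψ.eval₂ φ (ζ ^ s) - φ ((taylor 1 Ψ).coeff 0) -
          φ ((taylor 1 Ψ).coeff l) * (ζ ^ s - 1) ^ l =
          ∑ t ∈ ((Finset.range N).erase 0).erase l,
            φ ((taylor 1 Ψ).coeff t) * (ζ ^ s - 1) ^ t := by
        rw [eval_taylor, ← hN, ← Finset.add_sum_erase (Finset.range N) _
          (Finset.mem_range.2 (by omega : 0 < N)),
          ← Finset.add_sum_erase ((Finset.range N).erase 0) _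
          (Finset.mem_erase.2 ⟨by omega, Finset.mem_range.2 hlN⟩)]
        rw [pow_zero, mul_one]
        ring
      rw [h1]
      refine Od.sum _ fun t ht => ?_
      rw [Finset.mem_erase, Finset.mem_erase] at ht
      obtain ⟨htl, ht0, -⟩ := ht
      rcases lt_or_gt_of_ne htl with hlt | hgt
      · have h2 := hK _ (ih t hlt (by omega) (by omega))
        have h3 := h2.mul (((hone s).mono (by norm_num : (0 : ℤ) ≤ 1)).pow t)
        refine h3.mono ?_
        have : ((t : ℕ) : ℤ) * 0 = 0 := by ring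
        omega
      · have h3 := (hφ ((taylor 1 Ψ).coeff t)).mul ((hone s).pow t)
        refine h3.mono ?_
        have : ((t : ℕ) : ℤ) * 1 = t := by ring
        omega
    have h1 : Od v (l + 1) (φ ((taylor 1 Ψ).coeff l) * ((ζ ^ w - 1) ^ l - (ζ - 1) ^ l)) := by
      have h2 := hE 1
      rw [pow_one] at h2
      have h3 : φ ((taylor 1 Ψ).coeff l) * ((ζ ^ w - 1) ^ l - (ζ - 1) ^ l) =
          (Ψ.eval₂ φ (ζ ^ w) - Ψ.eval₂ φ ζ) -
          (Ψ.eval₂ φ (ζ ^ w) - φ ((taylor 1 Ψ).coeff 0) -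
            φ ((taylor 1 Ψ).coeff l) * (ζ ^ w - 1) ^ l) +
          (Ψ.eval₂ φ ζ - φ ((taylor 1 Ψ).coeff 0) -
            φ ((taylor 1 Ψ).coeff l) * (ζ - 1) ^ l) := by ring
      rw [h3]
      exact (((h w hw).mono (by omega)).sub (hE w)).add h2
    -- the linear approximation
    have h4 : Od v (l + 1) ((ζ ^ w - 1) ^ l - ((w : F) * (ζ - 1)) ^ l) := by
      have hw1 : Od v 1 ((w : F) * (ζ - 1)) := by
        have := (Od.nat (v := v) w).mul (hone 1)
        rwa [zero_add, pow_one] at this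
      refine pow_cong (hone w) hw1 ?_ l
      have h5 := (lin hl w).neg
      have h6 : ζ ^ w - 1 - (w : F) * (ζ - 1) = -(1 - ζ ^ w - w * (1 - ζ)) := by ring
      rw [h6]
      exact h5
    have h7 : Od v (l + 1) (φ ((taylor 1 Ψ).coeff l) * ((w : F) ^ l - 1) * (ζ - 1) ^ l) := by
      have h8 : φ ((taylor 1 Ψ).coeff l) * ((w : F) ^ l - 1) * (ζ - 1) ^ l =
          φ ((taylor 1 Ψ).coeff l) * ((ζ ^ w - 1) ^ l - (ζ - 1) ^ l) -
          φ ((taylor 1 Ψ).coeff l) * ((ζ ^ w - 1) ^ l - ((w : F) * (ζ - 1)) ^ l) := by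
        rw [mul_pow]
        ring
      rw [h8]
      refine h1.sub ?_
      have := (hφ ((taylor 1 Ψ).coeff l)).mul h4
      rwa [zero_add] at this
    have h9 : Od v 1 (φ ((taylor 1 Ψ).coeff l) * ((w : F) ^ l - 1)) := by
      unfold Od at h7 ⊢
      have hz' : v (ζ - 1) = exp (-1 : ℤ) := by
        rw [← hz, ← Valuation.map_neg, neg_sub]
      rw [map_mul, map_pow, hz'] at h7
      have h3 : exp (-((l : ℤ) + 1)) = exp (-1 : ℤ) * exp (-1 : ℤ) ^ l := by
        rw [← WithZero.exp_nsmul, ← WithZero.exp_add]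
        congr 1
        simp
      rw [h3] at h7
      exact (mul_le_mul_iff_left₀ (pow_pos WithZero.exp_pos _)).1 h7
    -- Bezout
    have hco : IsCoprime (p : ℤ) ((w : ℤ) ^ l - 1) := by
      rw [Prime.coprime_iff_not_dvd (Nat.prime_iff_prime_int.1 hp)]
      exact hroot l hl1 hl2
    obtain ⟨a, b, hab⟩ := hco
    have hab' : (a : F) * (p : F) + (b : F) * ((w : F) ^ l - 1) = 1 := by
      have h12 := congrArg (Int.cast : ℤ → F) hab
      rw [Int.cast_add, Int.cast_mul, Int.cast_mul, Int.cast_sub, Int.cast_pow, Int.cast_one,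
        Int.cast_natCast, Int.cast_natCast] at h12
      exact h12
    have hint : ∀ a : ℤ, Od v 0 (a : F) := by
      intro a
      have := hφ (a : R)
      rwa [map_intCast] at this
    have h10 : Od v 1 (φ ((taylor 1 Ψ).coeff l)) := by
      have h11 : φ ((taylor 1 Ψ).coeff l) = (a : F) * ((p : F) * φ ((taylor 1 Ψ).coeff l)) +
          (b : F) * (φ ((taylor 1 Ψ).coeff l) * ((w : F) ^ l - 1)) := by
        linear_combination (-φ ((taylor 1 Ψ).coeff l)) * hab'
      rw [h11]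
      refine Od.add ?_ ?_
      · have := (hint a).mul (hpv.mul (hφ ((taylor 1 Ψ).coeff l)))
        rwa [zero_add, add_zero] at this
      · have := (hint b).mul h9
        rwa [zero_add] at this
    rw [hq]
    exact h10.lt

/-- the congruence modulo `(X - 1) ^ (p - 1)` -/
lemma dvd_of_taylor {κ : Type} [CommRing κ] (G : Polynomial κ) (n : ℕ)
    (h : ∀ l : ℕ, 1 ≤ l → l < n → (taylor 1 G).coeff l = 0) :
    (X - 1) ^ n ∣ G - C (G.eval 1) := by
  have h1 : G = ∑ l ∈ Finset.range (G.natDegree + 1), C ((taylor 1 G).coeff l) * (X - 1) ^ l := by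
    conv_lhs => rw [← Polynomial.sum_taylor_eq G 1]
    rw [Polynomial.sum_over_range _ (by simp), natDegree_taylor]
    simp
  have h2 : G - C (G.eval 1) = ∑ l ∈ (Finset.range (G.natDegree + 1)).erase 0,
      C ((taylor 1 G).coeff l) * (X - 1) ^ l := by
    rw [← Finset.add_sum_erase (Finset.range (G.natDegree + 1)) _
      (Finset.mem_range.2 (by omega : 0 < G.natDegree + 1))] at h1
    rw [taylor_coeff_zero, pow_zero, mul_one] at h1
    conv_lhs => rw [h1]
    simp only [eval_add, eval_C, eval_finsetSum, eval_mul, eval_pow, eval_sub, eval_X, eval_one,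
      sub_self]
    have h3 : ∑ l ∈ (Finset.range (G.natDegree + 1)).erase 0,
        (taylor 1 G).coeff l * (0 : κ) ^ l = 0 := by
      refine Finset.sum_eq_zero fun l hl => ?_
      rw [Finset.mem_erase] at hl
      rw [zero_pow hl.1, mul_zero]
    rw [h3, add_zero]
    ring
  rw [h2]
  refine Finset.dvd_sum fun l hl => ?_
  rw [Finset.mem_erase] at hl
  by_cases hln : l < n
  · rw [h l (by omega) hln]
    simp
  · exact Dvd.dvd.mul_left (pow_dvd_pow _ (by omega)) _

end abs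

theorem t_RELB : S_RELB := by
  intro m _ p k hp hp2 hm hpk F _ _ c K _ _ j hunr Φ i P hP hrel q hq
  have hz := c.unif p k hp hm hpk P hP
  have hprim : IsPrimitiveRoot (c.z ^ k) p := by
    refine c.prim.pow (NeZero.pos m) ?_
    rw [hm, mul_comm]
  set ζ := c.z ^ k with hζ
  set v := P.valuation F with hv
  have hl : Od v 1 (1 - ζ) := hz.le
  -- the valuation of `p`
  have hpv : Od v ((p : ℤ) - 1) (p : F) := by
    obtain ⟨n, hn⟩ : ∃ n, p = n + 1 := ⟨p - 1, by have := hp.pos; omega⟩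
    have h1 := (hn ▸ hprim).prod_one_sub_pow_eq_order
    have h2 : (p : F) = ∏ j ∈ Finset.range n, (1 - ζ ^ (j + 1)) := by
      rw [h1, hn]
      push_cast
      ring
    have h3 : ∀ s : ℕ, Od v 1 (1 - ζ ^ s) := by
      intro s
      have h3 : 1 - ζ ^ s = (1 - ζ ^ s - s * (1 - ζ)) + s * (1 - ζ) := by ring
      rw [h3]
      refine ((lin hl s).mono (by norm_num)).add ?_
      have := (Od.nat (v := v) s).mul hl
      rwa [zero_add] at this
    have h4 : ∀ N : ℕ, Od v N (∏ j ∈ Finset.range N, (1 - ζ ^ (j + 1))) := by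
      intro N
      induction N with
      | zero => simpa using Od.one
      | succ N ih =>
        rw [Finset.prod_range_succ]
        push_cast
        exact ih.mul (h3 _)
    rw [h2]
    refine (h4 n).mono ?_
    rw [hn]
    push_cast
    omega
  set φ : 𝓞 K →+* F := j.comp (algebraMap (𝓞 K) K) with hφdef
  have hφv : ∀ a : 𝓞 K, φ a = j (a : K) := fun a => rfl
  have hφ : ∀ a : 𝓞 K, Od v 0 (φ a) := by
    intro a
    have h1 : IsIntegral ℤ (j (a : K)) := map_isIntegral_int j (RingOfIntegers.isIntegral_coe a)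
    obtain ⟨b, hb⟩ : ∃ b : 𝓞 F, algebraMap (𝓞 F) F b = j (a : K) := ⟨⟨_, h1⟩, rfl⟩
    unfold Od
    rw [neg_zero, WithZero.exp_zero, hφv, ← hb]
    exact P.valuation_le_one b
  have hq' : ∀ a : 𝓞 K, a ∈ q ↔ v (φ a) < 1 := hq
  have hpq : ((p : ℕ) : 𝓞 K) ∈ q := by
    rw [hq', map_natCast]
    exact (hpv.mono (by have := hp.two_le; omega : (1 : ℤ) ≤ (p : ℤ) - 1)).lt
  have hqtop : q ≠ ⊤ := by
    intro h
    have h1 : (1 : 𝓞 K) ∈ q := by
      rw [h]
      trivial
    rw [hq', map_one, map_one] at h1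
    exact lt_irrefl _ h1
  have hle : ∀ a : 𝓞 K, v (φ a) ≤ 1 := by
    intro a
    have := hφ a
    unfold Od at this
    rwa [neg_zero, WithZero.exp_zero] at this
  -- elements of `q`
  have hK : ∀ a ∈ q, Od v ((p : ℤ) - 1) (φ a) := by
    intro a ha
    have hdvd : q ∣ Ideal.span {((p : ℕ) : 𝓞 K)} := by
      rw [Ideal.dvd_iff_le, Ideal.span_singleton_le_iff_mem]
      exact hpq
    obtain ⟨b, hb⟩ := hdvd
    have hbq : ¬ b ≤ q := by
      intro h
      apply hqtop
      apply hunr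
      rw [← Ideal.span_singleton_le_iff_mem, hb, pow_two]
      exact Ideal.mul_mono_right h
    obtain ⟨b0, hb0, hb0q⟩ := SetLike.not_le_iff_exists.1 hbq
    have h1 : a * b0 ∈ Ideal.span {((p : ℕ) : 𝓞 K)} := by
      rw [hb]
      exact Ideal.mul_mem_mul ha hb0
    obtain ⟨c0, hc0⟩ := Ideal.mem_span_singleton'.1 h1
    have h2 : v (φ b0) = 1 := by
      rw [hq', not_lt] at hb0q
      exact le_antisymm (hle b0) hb0q
    have h3 : v (φ a) = v (φ c0) * v (p : F) := by
      have h4 := congrArg (fun x => v (φ x)) hc0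
      simp only [map_mul, map_natCast] at h4
      rw [h2, mul_one] at h4
      exact h4.symm
    have h5 := (hφ c0).mul hpv
    unfold Od at h5 ⊢
    rw [map_mul, zero_add] at h5
    rw [h3]
    exact h5
  -- the polynomial `Ψ`
  set e := (p - 1) * i with he
  have hei : e + i = p * i := by
    obtain ⟨n, hn⟩ : ∃ n, p = n + 1 := ⟨p - 1, by have := hp.pos; omega⟩
    rw [he, hn, Nat.add_sub_cancel]
    ring
  have hzp : ζ ^ p = 1 := hprim.pow_eq_one
  have hΨ : ∀ w : ℕ, ¬ p ∣ w →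
      Od v ((p : ℤ) - 1) ((Φ * X ^ e).eval₂ φ (ζ ^ w) - (Φ * X ^ e).eval₂ φ ζ) := by
    intro w hw
    have h1 : Od v ((p : ℤ) - 1) (Φ.eval₂ φ (ζ ^ w) * ζ ^ i - Φ.eval₂ φ ζ * ζ ^ (i * w)) :=
      hrel w hw
    have hζ0 : ∀ s : ℕ, Od v 0 (ζ ^ s) := by
      intro s
      have h2 : ζ ^ s = 1 - ((1 - ζ ^ s - s * (1 - ζ)) + s * (1 - ζ)) := by ring
      rw [h2]
      refine Od.one.sub ((((lin hl s).mono (by norm_num))).add ?_)
      have := (Od.nat (v := v) s).mul (hl.mono (by norm_num : (0 : ℤ) ≤ 1))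
      rwa [zero_add] at this
    have h3 := h1.mul (hζ0 (w * e + e))
    rw [add_zero] at h3
    have h4 : (Φ * X ^ e).eval₂ φ (ζ ^ w) - (Φ * X ^ e).eval₂ φ ζ =
        (Φ.eval₂ φ (ζ ^ w) * ζ ^ i - Φ.eval₂ φ ζ * ζ ^ (i * w)) * ζ ^ (w * e + e) := by
      have h5 : ζ ^ i * ζ ^ e = 1 := by
        rw [← pow_add, add_comm, hei, pow_mul, hzp, one_pow]
      have h6 : ζ ^ (i * w) * ζ ^ (w * e) = 1 := by
        have : ζ ^ (i * w) * ζ ^ (w * e) = (ζ ^ i * ζ ^ e) ^ w := by ring
        rw [this, h5, one_pow]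
      rw [eval₂_mul, eval₂_mul, eval₂_X_pow, eval₂_X_pow]
      generalize Φ.eval₂ φ (ζ ^ w) = A
      generalize Φ.eval₂ φ ζ = B
      clear_value ζ
      rw [← pow_mul, pow_add]
      linear_combination (-A * ζ ^ (w * e)) * h5 + (B * ζ ^ e) * h6
    rw [h4]
    exact h3
  have hmem := claim φ hφ hp q hq' hK hz
    (hpv.mono (by have := hp.two_le; omega : (1 : ℤ) ≤ (p : ℤ) - 1)) (Φ * X ^ e) hΨ
  -- modulo `q`
  have : Nontrivial (𝓞 K ⧸ q) := Ideal.Quotient.nontrivial_iff.2 hqtop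
  have : Fact p.Prime := ⟨hp⟩
  have hchar : CharP (𝓞 K ⧸ q) p := by
    rw [CharP.charP_iff_prime_eq_zero hp]
    have := Ideal.Quotient.eq_zero_iff_mem.2 hpq
    rwa [map_natCast] at this
  have hA : (X - 1) ^ (p - 1) ∣ (Φ * X ^ e).map (Ideal.Quotient.mk q) -
      C (((Φ * X ^ e).map (Ideal.Quotient.mk q)).eval 1) := by
    apply dvd_of_taylor
    intro l hl1 hl2
    have h1 := hmem l hl1 (by omega)
    have h2 : taylor 1 ((Φ * X ^ e).map (Ideal.Quotient.mk q)) =
        (taylor 1 (Φ * X ^ e)).map (Ideal.Quotient.mk q) := by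
      rw [taylor_apply, taylor_apply, Polynomial.map_comp]
      simp
    rw [h2, coeff_map]
    exact Ideal.Quotient.eq_zero_iff_mem.2 h1
  have hval : ((Φ * X ^ e).map (Ideal.Quotient.mk q)).eval 1 =
      Ideal.Quotient.mk q (Φ.eval 1) := by
    have h1 : ((Φ * X ^ e).map (Ideal.Quotient.mk q)).eval (Ideal.Quotient.mk q 1) =
        Ideal.Quotient.mk q ((Φ * X ^ e).eval 1) := Polynomial.eval_map_apply _ _
    rw [map_one] at h1
    rw [h1]
    simp
  rw [hval, Polynomial.map_mul, Polynomial.map_pow, map_X] at hA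
  have hB : (X - 1 : Polynomial (𝓞 K ⧸ q)) ^ (p - 1) ∣ X ^ (p * i) - 1 := by
    have h1 : (X - 1 : Polynomial (𝓞 K ⧸ q)) ^ p = X ^ p - 1 := by
      rw [sub_pow_char, one_pow]
    have h2 : (X - 1 : Polynomial (𝓞 K ⧸ q)) ^ (p - 1) ∣ X ^ p - 1 := by
      rw [← h1]
      exact pow_dvd_pow _ (Nat.sub_le _ _)
    refine h2.trans ?_
    have h3 := sub_dvd_pow_sub_pow (X ^ p : Polynomial (𝓞 K ⧸ q)) 1 i
    rwa [one_pow, ← pow_mul] at h3
  have hfin : Φ.map (Ideal.Quotient.mk q) - C (Ideal.Quotient.mk q (Φ.eval 1)) * X ^ i =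
      (Φ.map (Ideal.Quotient.mk q) * X ^ e - C (Ideal.Quotient.mk q (Φ.eval 1))) * X ^ i -
      Φ.map (Ideal.Quotient.mk q) * (X ^ (p * i) - 1) := by
    rw [← hei, pow_add]
    ring
  rw [hfin]
  exact dvd_sub (Dvd.dvd.mul_right hA _) (Dvd.dvd.mul_left hB _)

end Pool.Agent.K3h48.RQ
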